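import Pool.Agent.N833.ND.A1
import Pool.Agent.N953.ND.A2
import Pool.Agent.N862.ND.B
import Pool.Agent.N306.ND.C1
import Pool.Agent.N482.ND.C2
import Pool.Agent.N507.ND.C3
import Pool.Agent.N691.ND.D
import Pool.Agent.N11.ND.E
import Pool.Agent.N492.ND.F
import Pool.Agent.N296.ND.G
import Pool.Agent.N721.ND.Co
import Pool.Agent.N713.ND.Lo
import Pool.Agent.N749.ND.Dd
import Pool.Agent.N749.ND.Fm
import Pool.Agent.N123.ND.De
import Pool.Agent.N570.ND.Sparse
import Pool.Agent.N2.ND.Di
import Pool.Agent.N768.ND.M1
import Pool.Agent.N619.ND.M2
import Pool.Agent.N767.ND.M3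
import Pool.Agent.N664.ND.BF
import Pool.Agent.N499.ND.HA
import Pool.Agent.N263.ND.VC
import Pool.Agent.N383.ND.Cv
import Pool.Agent.N627.ND.T0
import Pool.Agent.N627.ND.Top

set_option autoImplicit false

/-!
# Hereditary discrepancy of definable set systems in nowhere dense classes

A monotone class of finite graphs is nowhere dense if and only if for every partitioned first-order
formula `φ(x; y)` and every `ε > 0` there is a constant `c` such that in every graph of the class the
hereditary discrepancy of the set system defined by `φ` is at most `c |U| ^ ε`, where `U` is the union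
of the set system.

The main point of the proof: in nowhere dense classes the 0-1 matrix of a first-order relation between
finite families `A` and `B` of tuples is a product of two real matrices, the rows of the first and the
columns of the second having `ℓ¹`-norm at most `c (|A| + |B|) ^ ε`. This is proved by induction on the
length of the splitter game, with a local form of first-order types (`composition` and `localization`
theorems), sparse neighbourhood covers of finite subsets (whose overlap is bounded in terms of the
size of the subset, not of the graph), and a calculus of sparse factorizations. The discrepancy bound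
follows by the Beck-Fiala argument for real matrices and the Sauer-Shelah lemma.
-/

namespace Pool.Agent.Results.MP_364488_co.DefinableDiscrepancy

open Pool.Agent

/-- `G` contains, as a subgraph, the `r`-subdivision of the complete graph with `t` vertices: the
distinct vertices `v i` are its old vertices, and for `i < j` the sequence
`P i j 0 = v i, P i j 1, …, P i j (r + 1) = v j` is the path which replaces the edge between `i` and
`j`; the inner vertices of the paths are all distinct, and distinct from the old vertices. -/
def HasSubdivision {V : Type} (G : SimpleGraph V) (r t : ℕ) : Prop :=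
  ∃ (v : Fin t → V) (P : Fin t → Fin t → ℕ → V), Function.Injective v ∧
    (∀ i j, i < j → P i j 0 = v i ∧ P i j (r + 1) = v j ∧
      ∀ a, a ≤ r → G.Adj (P i j a) (P i j (a + 1))) ∧
    (∀ i j a k, i < j → 1 ≤ a → a ≤ r → P i j a ≠ v k) ∧
    (∀ i j k l a b, i < j → k < l → 1 ≤ a → a ≤ r → 1 ≤ b → b ≤ r → P i j a = P k l b →
      i = k ∧ j = l ∧ a = b)

/-- Classes of finite graphs (on the vertex sets `Fin n`). -/
abbrev GraphClass : Type := (n : ℕ) → SimpleGraph (Fin n) → Prop

/-- The class is closed under subgraphs (and isomorphic copies): a graph with an injective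
homomorphism to a member is a member. -/
def Monotone (C : GraphClass) : Prop :=
  ∀ (m n : ℕ) (G : SimpleGraph (Fin m)) (G' : SimpleGraph (Fin n)), C n G' →
    (∃ f : Fin m → Fin n, Function.Injective f ∧ ∀ u v, G.Adj u v → G'.Adj (f u) (f v)) → C m G

/-- For every `r` there is `t` such that no member contains the `r`-subdivision of the complete graph
with `t` vertices. -/
def NowhereDense (C : GraphClass) : Prop :=
  ∀ r, ∃ t, ∀ (n : ℕ) (G : SimpleGraph (Fin n)), C n G → ¬ HasSubdivision G r t

/-- `G` satisfies `φ(a, b)`, where `φ` is a first-order formula in the language of graphs whose free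
variables are the entries of a `k`-tuple `x` and of an `l`-tuple `y`. -/
def Sat {V : Type} {k l : ℕ} (G : SimpleGraph V)
    (φ : FirstOrder.Language.graph.Formula (Fin k ⊕ Fin l)) (a : Fin k → V) (b : Fin l → V) : Prop :=
  @FirstOrder.Language.Formula.Realize FirstOrder.Language.graph V G.structure _ φ (Sum.elim a b)

/-- The union of the sets `{a | G ⊨ φ(a, b)}`. -/
def Union {V : Type} {k l : ℕ} (G : SimpleGraph V)
    (φ : FirstOrder.Language.graph.Formula (Fin k ⊕ Fin l)) : Set (Fin k → V) :=
  {a | ∃ b, Sat G φ a b}

open Classical in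
/-- The hereditary discrepancy of the system of the sets `{a | G ⊨ φ(a, b)}` is at most `D`: for every
finite set `X` of `k`-tuples there is a colouring `χ` with values `1` and `-1` such that for all `b`
the sum of the values of `χ` on `{a ∈ X | G ⊨ φ(a, b)}` has absolute value at most `D`. -/
def HerdiscLE {V : Type} {k l : ℕ} (G : SimpleGraph V)
    (φ : FirstOrder.Language.graph.Formula (Fin k ⊕ Fin l)) (D : ℝ) : Prop :=
  ∀ X : Finset (Fin k → V), ∃ χ : (Fin k → V) → ℤ, (∀ a, χ a = 1 ∨ χ a = -1) ∧
    ∀ b : Fin l → V, |((∑ a ∈ X.filter (fun a => Sat G φ a b), χ a : ℤ) : ℝ)| ≤ D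

theorem top : N627.ND.S_TOP := by
  have hA : N627.ND.S_A := N953.ND.a2 N833.ND.a1
  have hD : N627.ND.S_D := N691.ND.d
  have hC : N627.ND.S_C := N507.ND.c3 (N482.ND.c2 N306.ND.c1) hD
  have hG : N627.ND.S_G := N296.ND.g (N492.ND.f (N11.ND.e hC hD))
  have hRI : N627.ND.S_RI := N627.ND.ri
  have hCO : N627.ND.S_CO := N721.ND.co hRI
  have hBD : N627.ND.S_BD := N749.ND.bd
  have hDD : N627.ND.S_DD := N749.ND.dd
  have hLO : N627.ND.S_LO := N713.ND.lo hRI hCO hBD
  have hDE : N627.ND.S_DE := N123.ND.de hDD
  have hDI : N627.ND.S_DI := N2.ND.di hG hDD hBD N570.ND.sr N570.ND.sb N570.ND.sc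
  have hM1 : N627.ND.S_M1 := N768.ND.m1 N627.ND.fin N627.ND.tto hCO N570.ND.sb
  have hM2 : N627.ND.S_M2 := N619.ND.m2 hG N627.ND.fin hRI hLO hDE N570.ND.sr N570.ND.sb N570.ND.sc
  have hMA : N627.ND.S_MA := N767.ND.m3 hM1 hM2 hDI N570.ND.sr
  exact N627.ND.top hA N862.ND.b hMA N749.ND.fm (N263.ND.vc N664.ND.bf N499.ND.ha)
    (N383.ND.cv N499.ND.ha)

/-- A monotone class of finite graphs is nowhere dense if and only if, for every partitioned formula
and every `ε > 0`, the hereditary discrepancy of the defined set systems is at most a constant times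
the `ε`-th power of the size of the union of the system. -/
theorem result (C : GraphClass) (hC : Monotone C) :
    NowhereDense C ↔
      ∀ (k l : ℕ) (φ : FirstOrder.Language.graph.Formula (Fin k ⊕ Fin l)) (ε : ℝ), 0 < ε →
        ∃ c : ℝ, ∀ (n : ℕ) (G : SimpleGraph (Fin n)), C n G →
          HerdiscLE G φ (c * ((Union G φ).ncard : ℝ) ^ ε) :=
  top C hC

end Pool.Agent.Results.MP_364488_co.DefinableDiscrepancy
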